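import Pool.Agent.K6.H28.NW.All

/-!
# The conjecture `P_m` for every integer `m`: one field of rational functions

Let `F` be a finite field and let `m` be any integer. For a quasi-projective scheme `A` over `F` let
`H_i(A) = H_i^c(A, ℚ(m)) = CH_m(A, i - 2 m) ⊗ ℚ`, and let `W_i(A)` be the weight homology of `A` with
coefficients in `CH_m ⊗ ℚ`: the homology of the complex which one gets if one applies the functor
`CH_m ⊗ ℚ` of Chow motives to the weight complex of `A` (Gillet and Soulé, Bondarko); so for smooth
projective `A` one has `W_(2 m)(A) = CH_m(A) ⊗ ℚ` and `W_i(A) = 0` for `i ≠ 2 m`. For `m < 0` all groups
`W_i(A)` are zero. There is a canonical map `H_i(A) → W_i(A)`, and relative groups which fit in a long exact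
sequence. For the field `K` of rational functions of a variety let `H_i(K)` and `W_i(K)` be the direct
limits over the non-empty open subschemes; so `H_i(K) = CH^(e - m)(K, i - 2 m) ⊗ ℚ`, where `e` is the
transcendence degree.

**Theorem** (`AllWeights`). For each `N` the following are equivalent:

* `P_m(N)`: `H_i(Y) = 0` for all smooth projective `Y` of dimension at most `N` and all `i ≠ 2 m`;
* the maps `H_i(A) → W_i(A)` are bijective for all quasi-projective schemes `A` of dimension at most `N` and
  all `i`;
* the maps `H_i(K) → W_i(K)` are bijective for all `i` for the **single** field
  `K = F(x_1, ..., x_(N + 1))`.

If the maps `H_i(K) → W_i(K)` are bijective for **one** field `K` of transcendence degree `e` over `F` then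
`P_m(e - 1)` holds. The conjecture `P_m` holds if and only if for each `N` there is one field of
transcendence degree `e ≥ N` for which the maps are bijective.

The proof. The relative groups are zero for the projective space `X` of dimension `d + 1`. So a relative
class on a closed subset `Z` of `X` of dimension `d` is a residue of a relative class on `X ∖ Z`; if the
latter becomes zero on a smaller open subscheme then the former becomes zero on a larger closed subset of
dimension `d`. If the relative groups of the schemes of dimension less than `d` are zero then the classes
at the generic points of `Z` extend to `Z`, and one concludes that they are zero. This gives the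
closed subsets of dimension `d` of `X`, and then, since all varieties of dimension `d` are birational to
hypersurfaces, all varieties of dimension `d`. The residue maps give the step from `F(x_1, ..., x_(e + 1))` to
`F(x_1, ..., x_e)`.
-/

set_option autoImplicit false

namespace Pool.Agent.Results.MP_7923e9_ag.AllWeights

open Pool.Agent.K6.H28.NW

/-- **The conjecture `P_m` for every integer `m`, in terms of one field of rational functions.** -/
theorem result (U : Family) (m : ℤ) (D : ∀ t, Triangle (U.S t)) (hU : IsWorld U)
    (hD : IsComparison U m D) : AllWeights U m D :=
  All.allWeights hU hD

end Pool.Agent.Results.MP_7923e9_ag.AllWeights
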