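import Pool.Agent.K6.H18.Cubic.Reduced

/-!
# Parshin's conjecture in Borel-Moore homology: one sequence of explicit smooth rational cubics

Let `k` be a finite field.

The hypersurfaces. For polynomials `e_1, …, e_r`, `r > 0`, in `k[x_1, …, x_m]`, each of one of the
forms `x_a - x_b x_c`, `x_a - (x_b + x_c)`, `x_a - 1` (`IsElementary ∅ e`), let `V(e)`
(`Hypersurface e`) be the hypersurface `∑ u_j e_j(x) = w (1 - w)` in the affine space with coordinates
`x_i`, `u_j`, `w`. It is smooth of dimension `m + r`, integral, rational and of degree at most three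
(`IsRationalHypersurface e`). In `IsElementary S' e` also the equations `x_a - s`, `s` in `S'`, are
allowed; here `S'` is any set which generates the field `k`.

The theories. `BM k`: Borel-Moore homology theories on the affine schemes of finite type over `k`,
with push-forward along closed immersions, pull-back along smooth morphisms, localization sequences,
homotopy invariance, and the usual compatibilities. The case in point:
* `M.H B a b` is the group `H^c_(a+2b)(Spec B, ℚ(b)) = CH_b(Spec B, a)` with rational coefficients;
* `W.H B a b` is the weight homology (Gillet–Soulé, Bondarko) of `Spec B` with coefficients in `CH_b`: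
  the morphisms from `ℚ(b)[2b][a]` to the weight complex of the motive with compact support of
  `Spec B` in the homotopy category of complexes of Chow motives;
* `c : M → W` is given by the weight complex functor.
`Comparison c B b` says that `c` is bijective for `Spec B`, the integer `b` and all `a`.

For a scheme `X` over `k`, `g : H X a b → K X a b` is the same map for `X`, and `Compares g X b` says
that it is bijective for all `a`. If `X` is smooth and projective then its weight homology is
`CH_b(X)` for `a = 0`, and zero for `a ≠ 0`, so that `X` is pure (`IsPure g X`), and `Parshin H X b`,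
the vanishing of `H X a b` for all `a ≠ 0`, is the instance of `P_b` for `X`: with `i = a + 2b` the
group is `H^c_i(X, ℚ(b))`, `i ≠ 2b`. `𝒱` is the class of all quasi-projective schemes over `k`, or of
all those with an ample family of line bundles. Every scheme in `𝒱` has a torsor under a vector bundle
which is affine (Jouanolou, Thomason), and the pull-back to it is an isomorphism on both groups; this
gives `IsExtensionOf`. That `c` is bijective for `Spec k` is Quillen's theorem on the K-groups of
finite fields.

Theorem. Over every finite field `k` there is one sequence `V_1, V_2, …` of hypersurfaces `V(e)` with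
coefficients `0`, `1`, `-1`, such that
* the following are equivalent (`IsReduced`): the comparison for all smooth `X` in `𝒱` and all `b`;
  for all `X` in `𝒱`, possibly singular; for all `V(e)`; for infinitely many `V_N`;
* they imply `P_b` for all `b`, hence Parshin's conjecture;
* for each smooth projective (pure) `X` and all but finitely many `N` there is an `n` such that for
  all `b` the comparison for the one hypersurface `V_N` and the one weight `b + n` implies `P_b` for
  `X`;
* for each smooth projective `X` there are a `V(e)`, with constants in `S'`, and an `n` such that for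
  all `b`: `P_b` for `X` is equivalent to the comparison for `V(e)` and `b + n`.
Conversely the conjectures `P_b` for all `b` imply the comparison for all quasi-projective schemes
(Geisser; see also the hand-in `AllWeights`), so that they are equivalent to the comparison for the
hypersurfaces `V_N` of any infinite subsequence.

The construction and the library are those of `MP_81632f_ag.CubicHypersurfaces` (helper18). New here:
the comparison with the weight homology carries Parshin's conjecture to varieties which are affine
and not proper, and is inherited by natural direct summands.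
-/

set_option autoImplicit false

open AlgebraicGeometry CategoryTheory MvPolynomial

namespace Pool.Agent.Results.MP_7923e9_ag.CubicHypersurfaces

open Pool.Agent.K6.H18.Cubic Pool.Agent.K6.H18.Cubic.Alg

/-- The morphism of theories `c` is bijective for `Spec B`, the weight `b` and all `a`. -/
def Comparison {k : Type} [CommRing k] {M W : BM k} (c : M.Hom W) (B : Alg k) (b : ℤ) : Prop :=
  ∀ a : ℤ, Function.Bijective (c.mapf (B := B) (a := a) (b := b))

section
variable {k : Type} [CommRing k] {H K : Over (Spec (CommRingCat.of k)) → ℤ → ℤ → Type}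
  [∀ X a b, AddCommGroup (H X a b)] [∀ X a b, AddCommGroup (K X a b)]

/-- The homomorphisms `g` are bijective for `X`, the weight `b` and all `a`. -/
def Compares (g : ∀ X a b, H X a b →+ K X a b) (X : Over (Spec (CommRingCat.of k))) (b : ℤ) :
    Prop :=
  ∀ a : ℤ, Function.Bijective (g X a b)

/-- The groups `K X a b` vanish for `a ≠ 0`, and `g` is bijective for `a = 0`: this is so if `X` is
smooth and projective. -/
def IsPure (g : ∀ X a b, H X a b →+ K X a b) (X : Over (Spec (CommRingCat.of k))) : Prop :=
  (∀ b, Function.Bijective (g X 0 b)) ∧ ∀ a b, a ≠ 0 → ∀ y : K X a b, y = 0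

variable (H) in
/-- The groups `H X a b` vanish for `a ≠ 0`: `P_b` for `X`. -/
def Parshin (X : Over (Spec (CommRingCat.of k))) (b : ℤ) : Prop :=
  ∀ a : ℤ, a ≠ 0 → ∀ x : H X a b, x = 0

theorem IsPure.compares_iff {g : ∀ X a b, H X a b →+ K X a b}
    {X : Over (Spec (CommRingCat.of k))} (h : IsPure g X) (b : ℤ) :
    Compares g X b ↔ Parshin H X b := by
  constructor
  · intro hc a ha x
    refine (hc a).1 ?_
    rw [h.2 a b ha (g X a b x), h.2 a b ha (g X a b 0)]
  · intro hp a
    by_cases ha : a = 0
    · subst ha
      exact h.1 b
    · refine ⟨fun x y _ => ?_, fun y => ⟨0, ?_⟩⟩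
      · rw [hp a ha x, hp a ha y]
      · rw [h.2 a b ha y, map_zero]

end

section
variable {k : Type} [Field k] {M W : BM k} (c : M.Hom W)

theorem inherited_comparison : Inherited (Comparison c) := by
  rintro B C n ⟨s, hs, h1, h2⟩ b h a
  refine ⟨fun x y hxy => ?_, fun y => ?_⟩
  · have h3 : s.inclf x = s.inclf y := (h a).1 (by rw [h1, h1, hxy])
    rw [← hs M a b x, h3, hs]
  · obtain ⟨x, hx⟩ := (h a).2 (s.inclf y)
    exact ⟨s.projf x, by rw [h2 _ _ c, hx, hs]⟩

theorem splitsP_forall {P : ℤ → ∀ (B : Type) [CommRing B] [Algebra k B], ℤ → Prop}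
    (h : ∀ a, SplitsP (P a)) :
    SplitsP (fun (B : Type) [CommRing B] [Algebra k B] b => ∀ a, P a B b) where
  poly r σ ψ hψ _ _ hb := forall_congr' fun a => (h a).poly r σ ψ hψ hb
  sum e π hπ hker _ _ hb := (forall_congr' fun a => (h a).sum e π hπ hker hb).trans forall_and
  prod f hf φ₁ φ₂ h₁ h₂ k₁ k₂ _ :=
    (forall_congr' fun a => (h a).prod f hf φ₁ φ₂ h₁ h₂ k₁ k₂).trans forall_and

theorem splitsP_congr {P P' : ∀ (B : Type) [CommRing B] [Algebra k B], ℤ → Prop} (h : SplitsP P)
    (e : ∀ (B : Type) [CommRing B] [Algebra k B] (b : ℤ), P B b ↔ P' B b) : SplitsP P' where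
  poly r σ ψ hψ _ _ hb := by
    rw [← e, ← e]
    exact h.poly r σ ψ hψ hb
  sum f π hπ hker _ _ hb := by
    rw [← e, ← e, ← e]
    exact h.sum f π hπ hker hb
  prod f hf φ₁ φ₂ h₁ h₂ k₁ k₂ _ := by
    rw [← e, ← e, ← e]
    exact h.prod f hf φ₁ φ₂ h₁ h₂ k₁ k₂

theorem splitsP_comparison :
    SplitsP (fun (B : Type) [CommRing B] [Algebra k B] b => Comparison c ⟨B⟩ b) := by
  have h1 := splitsP_forall fun a =>
    ((isAdditive_injective (G := Empty)).splitsP_bundled c (fun g => g.elim) a).and
      ((isAdditive_tate (G := Empty)).splitsP_bundled c (fun g => g.elim) a)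
  refine splitsP_congr h1 fun B _ _ b => forall_congr' fun a => ?_
  exact ⟨fun h => ⟨h.1, fun y => h.2 y (fun i => i.elim)⟩, fun h => ⟨h.1, fun y _ => h.2 y⟩⟩

end

/-- **Parshin's conjecture and one sequence of explicit smooth rational cubic hypersurfaces.** -/
theorem result {k : Type} [Field k] [Finite k] (S' : Set k) (hS' : Subfield.closure S' = ⊤) :
    (∀ (m r : ℕ) (e : Fin r → MvPolynomial (Fin m) k), IsElementary Set.univ e →
      IsRationalHypersurface e) ∧
    ∃ v : ℕ → EqnSystem k, (∀ N, IsElementary ∅ (v N).eqs) ∧
      ∀ (M W : BM k) (c : M.Hom W) (𝒱 : Over (Spec (CommRingCat.of k)) → Prop)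
        (H K : Over (Spec (CommRingCat.of k)) → ℤ → ℤ → Type)
        [∀ X a b, AddCommGroup (H X a b)] [∀ X a b, AddCommGroup (K X a b)]
        (g : ∀ X a b, H X a b →+ K X a b), IsExtensionOf (Comparison c) 𝒱 (Compares g) →
        -- the comparison for all schemes, for the hypersurfaces, for infinitely many `V_N`
        IsReduced ∅ v 𝒱 (Compares g) ∧
        -- Parshin's conjecture
        (∀ I : Set ℕ, I.Infinite → (∀ N ∈ I, ∀ b, Compares g (member v N) b) →
          ∀ X, 𝒱 X → IsPure g X → ∀ b, Parshin H X b) ∧
        -- instance by instance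
        (∀ X, 𝒱 X → IsPure g X →
          (∃ N₀ : ℕ, ∀ N ≥ N₀, ∃ n : ℕ, ∀ b, Compares g (member v N) (b + n) → Parshin H X b) ∧
          ((∀ b, Comparison c (base k) b) → ∃ (m r n : ℕ) (e : Fin r → MvPolynomial (Fin m) k),
            IsElementary S' e ∧
              ∀ b, Parshin H X b ↔ Compares g (specOf (Hypersurface e)) (b + n))) := by
  have hsep := isSeparable_of_finite k ∅
  obtain ⟨v, hv, h⟩ := exists_isReduced (k := k) (S := ∅) Set.countable_empty
  refine ⟨fun _ _ e he => isRationalHypersurface e he, v, hv, fun M W c 𝒱 H K _ _ g hTX => ?_⟩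
  have h1 := h _ (inherited_comparison c) 𝒱 _ hTX
  refine ⟨h1, fun I hI hN X hX hp b => ?_, fun X hX hp => ⟨?_, fun hk => ?_⟩⟩
  · have h2 : ∀ X, 𝒱 X → ∀ b, Compares g X b := ((h1.tfae I hI).out 3 1).1 hN
    exact (hp.compares_iff b).1 (h2 X hX b)
  · obtain ⟨N₀, hN₀⟩ := h1.instances X hX
    refine ⟨N₀, fun N hN => ?_⟩
    obtain ⟨n, hn⟩ := hN₀ N hN
    exact ⟨n, fun b hb => (hp.compares_iff b).1 (hn b hb)⟩
  · obtain ⟨m, r, n, e, he, -, hb⟩ :=
      exists_hypersurface hS' (splitsP_comparison c).toSplits hk hTX X hX
    exact ⟨m, r, n, e, he, fun b => (hp.compares_iff b).symm.trans (hb b)⟩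

end Pool.Agent.Results.MP_7923e9_ag.CubicHypersurfaces
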