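import Pool.Agent.K6.H28.NW.Main

/-!
# Negative weights: one field of rational functions for all smooth projective schemes

Let `F` be a finite field and let `w < 0` be an integer. For a scheme `A` of finite type over `F` let
`M A i = H_i^c(A, ℚ(w)) = CH_w(A, i - 2 w) ⊗ ℚ`. The conjecture `P_w` says that these groups are zero
for all smooth projective `A` (for `i = 2 w` the group is zero, since `w < 0`). For a field `K` of
transcendence degree `e` over `F` let `H_i(K) = CH^(e - w)(K, i - 2 w) ⊗ ℚ`, the direct limit of the groups
`M U i` of the open subschemes `U` of a variety with the field of rational functions `K`.

**In bounded degrees** (`Bounded`). For all integers `N` and `s` the following are equivalent: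

* `M Y i = 0` for all smooth projective `Y` of dimension at most `N` and all `i ≤ s`;
* `M A i = 0` for all quasi-projective schemes `A` of dimension at most `N` and all `i ≤ s`;
* `H_i(K) = 0` for all fields `K` of transcendence degree at most `N` and all `i ≤ s`;
* `M U i = 0` for all non-empty open subschemes `U` of the projective spaces of dimensions at most `N + 1`
  and at least one, and all `i ≤ s + 1`;
* `H_i(F(x_1, ..., x_(e + 1))) = 0` for all `i ≤ s + 1` and all `e` with `0 ≤ e ≤ N` and `e ≤ s - w`.

**One field** (`OneField`). `P_w` holds for all smooth projective schemes of dimension at most `N` if and
only if `H_i(F(x_1, ..., x_(N + 1))) = 0` for all `i`, that is: the motivic cohomology with rational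
coefficients of the single field `F(x_1, ..., x_(N + 1))` in the single weight `N + 1 - w` is zero. If
`K` is **any** field of transcendence degree `e` over `F` for which the motivic cohomology in the weight
`e - w` is zero then `P_w` holds for all smooth projective schemes of dimension at most `e - 1`.

**All dimensions** (`AllDimensions`). `M Y i = 0` for all `i ≤ s` and **all** smooth projective `Y` if and
only if this holds for the `Y` of dimension at most `s - w`, and if and only if
`H_i(F(x_1, ..., x_(e + 1))) = 0` for all `i ≤ s + 1` and `0 ≤ e ≤ s - w`. The conjecture `P_w` holds if
and only if for each `N` there is a field `K` of transcendence degree `e ≥ N` with `H_i(K) = 0` for all `i`.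

The proof. Let `X` be the projective space of dimension `d + 1`. Since `w < 0`, the groups `M X i` are
zero. So a class on a closed subset `Z` of `X` of dimension `d` is a residue of a class on `X ∖ Z`; if
`H_(i + 1)(F(X)) = 0` then the latter becomes zero on a smaller open subscheme, and therefore the class
becomes zero on a larger closed subset of dimension `d`. If the groups of the schemes of dimension less
than `d` are zero then the classes at the generic points of `Z` extend to `Z`, and one concludes that
they are zero. This gives the closed subsets of dimension `d` of `X`, and then, since all varieties of
dimension `d` are birational to hypersurfaces, all varieties of dimension `d`. One also has to know that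
`H_(i + 1)(F(x_1, ..., x_(e + 1))) = 0` implies `H_i(F(x_1, ..., x_e)) = 0`: the residue map for the
valuation of `x_(e + 1)` is surjective.
-/

set_option autoImplicit false

namespace Pool.Agent.Results.MP_7923e9_ag.OneFunctionField

open Pool.Agent.K6.H28.NW

/-- **The conjecture `P_w` for a fixed weight `w < 0`, in terms of fields of rational functions.** -/
theorem result (U : Family) (w : ℤ) (hU : IsUniverse U w) :
    Bounded U w ∧ OneField U ∧ AllDimensions U w :=
  ⟨bounded hU, oneField hU, allDimensions hU⟩

end Pool.Agent.Results.MP_7923e9_ag.OneFunctionField
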